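import Pool.Agent.Shared.Blossom.Cover

/-!
Degree-constrained subgraphs of simple graphs (lower and upper degree bounds, forced edges) in
polynomial time, by reduction to matching.
-/

namespace Pool.Agent.Shared.Blossom

open Pool.Agent.Shared.PolyTime Function

variable {α : Type} [DecidableEq α]

theorem cover_some {W T : List α} {E : List (α × α)} (hT : ∀ t ∈ T, t ∈ W)
    {M : List ((α × Bool) × (α × Bool))}
    (h : pmatch (W.flatMap fun v => [(v, false), (v, true)]) (dblE W T E) = some M) :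
    ∃ S : Set α, (∀ x ∈ S, (mt M (x, false)).1 ∈ S ∧ (mt M ((mt M (x, false)).1, false)).1 = x ∧
      Adj E x (mt M (x, false)).1) ∧ ∀ t ∈ T, t ∈ S := by
  obtain ⟨h1, h2⟩ := pmatch_some h
  refine ⟨{x | mt M (x, false) ≠ (x, false) ∧ (mt M (x, false)).2 = false}, ?_, ?_⟩
  · rintro x ⟨hx, hx'⟩
    have h3 := h1.1 (x, false)
    have h4 := h1.2 _ hx
    rcases hy : mt M (x, false) with ⟨y, c⟩
    rw [hy] at h3 h4 hx hx'
    simp only at hx'
    subst hx'
    simp only [Set.mem_ofPred_eq, h3]
    exact ⟨⟨hx.symm, trivial⟩, trivial, by simpa using (adj_dblE _ _ _ _ _ _ _).1 h4⟩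
  · intro t ht
    have h3 := h2 (t, false) (by simpa using hT t ht)
    refine ⟨h3, ?_⟩
    have h4 := h1.2 _ h3
    rcases hy : mt M (t, false) with ⟨y, c⟩
    rw [hy] at h4
    rcases (adj_dblE _ _ _ _ _ _ _).1 h4 with h | h
    · exact h.1.symm
    · exact absurd ht h.2.2.2

/-- `X` is a symmetric relation on `V`, contained in the allowed pairs, containing the forced
allowed pairs, with all degrees between the bounds. -/
structure Sol (V : List α) (al fo : α → α → Bool) (lo hi : α → ℕ) (X : α → α → Bool) : Prop where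
  symm : ∀ v w, X v w = true → X w v = true
  sub : ∀ v w, X v w = true → v ∈ V ∧ w ∈ V ∧ al v w = true
  forced : ∀ v ∈ V, ∀ w ∈ V, al v w = true → fo v w = true → X v w = true
  lo_le : ∀ v ∈ V, lo v ≤ (V.toFinset.filter fun w => X v w = true).card
  le_hi : ∀ v ∈ V, (V.toFinset.filter fun w => X v w = true).card ≤ hi v

/-- Port vertices of the gadget graph. -/
def ports (V : List α) (al : α → α → Bool) : List (α × Option α × ℕ) :=
  V.flatMap fun v => (V.filter (al v)).map fun w => (v, some w, 0)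

/-- Copy vertices of the gadget graph. -/
def copies (V : List α) (k : α → ℕ) : List (α × Option α × ℕ) :=
  V.flatMap fun v => (List.range (min (k v) (V.length + 1))).map fun i => (v, none, i)

/-- Edges of the gadget graph. -/
def gedges (V : List α) (al fo : α → α → Bool) (hi : α → ℕ) :
    List ((α × Option α × ℕ) × (α × Option α × ℕ)) :=
  V.flatMap fun v => (V.filter (al v)).flatMap fun w =>
    (if fo v w then [] else [((v, some w, 0), (w, some v, 0))]) ++
      (List.range (min (hi v) (V.length + 1))).map fun i => ((v, some w, 0), (v, none, i))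

/-- Search for a degree-constrained subgraph, returned as a list of ordered pairs. -/
def dcs (V : List α) (al fo : α → α → Bool) (lo hi : α → ℕ) : Option (List (α × α)) :=
  (pmatch ((ports V al ++ copies V fun _ => V.length + 1).flatMap fun v => [(v, false), (v, true)])
    (dblE (ports V al ++ copies V fun _ => V.length + 1) (ports V al ++ copies V lo)
      (gedges V al fo hi))).map fun M =>
    V.flatMap fun v => (V.filter fun w => al v w &&
      decide ((mt M ((v, some w, 0), false)).1 ≠ (w, some v, 0))).map fun w => (v, w)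

omit [DecidableEq α] in
theorem mem_ports {V : List α} {al : α → α → Bool} {x : α × Option α × ℕ} :
    x ∈ ports V al ↔ ∃ v ∈ V, ∃ w ∈ V, al v w = true ∧ x = (v, some w, 0) := by
  simp only [ports, List.mem_flatMap, List.mem_map, List.mem_filter]
  grind

omit [DecidableEq α] in
theorem mem_copies {V : List α} {k : α → ℕ} {x : α × Option α × ℕ} :
    x ∈ copies V k ↔ ∃ v ∈ V, ∃ i, i < k v ∧ i ≤ V.length ∧ x = (v, none, i) := by
  simp only [copies, List.mem_flatMap, List.mem_map, List.mem_range]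
  grind

omit [DecidableEq α] in
theorem mem_gedges {V : List α} {al fo : α → α → Bool} {hi : α → ℕ}
    {x y : α × Option α × ℕ} : (x, y) ∈ gedges V al fo hi ↔ ∃ v ∈ V, ∃ w ∈ V, al v w = true ∧
      x = (v, some w, 0) ∧ ((fo v w = false ∧ y = (w, some v, 0)) ∨
        ∃ i, i < hi v ∧ i ≤ V.length ∧ y = (v, none, i)) := by
  simp only [gedges, List.mem_flatMap, List.mem_map, List.mem_range, List.mem_filter,
    List.mem_append]
  constructor
  · rintro ⟨v, hv, w, ⟨hw, ha⟩, h | ⟨i, hi', h⟩⟩
    · refine ⟨v, hv, w, hw, ha, ?_⟩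
      split_ifs at h with hf
      · simp at h
      · simp only [List.mem_singleton, Prod.mk.injEq] at h
        exact ⟨by simp [h.1], Or.inl ⟨by simpa using hf, by simp [h.2]⟩⟩
    · obtain ⟨rfl, rfl⟩ := Prod.mk.inj h
      exact ⟨v, hv, w, hw, ha, rfl, Or.inr ⟨i, by omega, by omega, rfl⟩⟩
  · rintro ⟨v, hv, w, hw, ha, rfl, ⟨hf, rfl⟩ | ⟨i, h1, h2, rfl⟩⟩
    · exact ⟨v, hv, w, ⟨hw, ha⟩, Or.inl (by simp [hf])⟩
    · exact ⟨v, hv, w, ⟨hw, ha⟩, Or.inr ⟨i, by omega, rfl⟩⟩

section

variable {V : List α} {al fo : α → α → Bool} {lo hi : α → ℕ}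

theorem sol_of_matching (hal : ∀ v ∈ V, ∀ w ∈ V, al v w = true → al w v = true)
    (hfo : ∀ v ∈ V, ∀ w ∈ V, fo v w = true → fo w v = true)
    {S : Set (α × Option α × ℕ)} {m : α × Option α × ℕ → α × Option α × ℕ}
    (hm : ∀ x ∈ S, m x ∈ S ∧ m (m x) = x ∧ Adj (gedges V al fo hi) x (m x))
    (hT : ∀ t ∈ ports V al ++ copies V lo, t ∈ S) {X : α → α → Bool}
    (hX : ∀ v w, X v w = true ↔ v ∈ V ∧ w ∈ V ∧ al v w = true ∧
      m (v, some w, 0) ≠ (w, some v, 0)) : Sol V al fo lo hi X := by
  have hp : ∀ v ∈ V, ∀ w ∈ V, al v w = true → (v, some w, 0) ∈ S := fun v hv w hw h =>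
    hT _ (List.mem_append_left _ (mem_ports.2 ⟨v, hv, w, hw, h, rfl⟩))
  have hport : ∀ v w, (v, some w, 0) ∈ S → (m (v, some w, 0) = (w, some v, 0) ∧
      (fo v w = false ∨ fo w v = false)) ∨
      ∃ i, i < hi v ∧ m (v, some w, 0) = (v, none, i) := by
    intro v w h
    rcases (hm _ h).2.2.2 with g | g
    · obtain ⟨v', -, w', -, -, e, g⟩ := mem_gedges.1 g
      simp only [Prod.mk.injEq, Option.some.injEq, and_true] at e
      obtain ⟨rfl, rfl⟩ := e
      rcases g with g | ⟨i, g1, -, g2⟩
      · exact Or.inl ⟨g.2, Or.inl g.1⟩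
      · exact Or.inr ⟨i, g1, g2⟩
    · obtain ⟨v', -, w', -, -, e, g⟩ := mem_gedges.1 g
      rcases g with g | ⟨i, g1, -, g2⟩
      · have g2 := g.2
        simp only [Prod.mk.injEq, Option.some.injEq, and_true] at g2
        obtain ⟨rfl, rfl⟩ := g2
        exact Or.inl ⟨e, Or.inr g.1⟩
      · simp at g2
  refine ⟨?_, ?_, ?_, ?_, ?_⟩
  · intro v w h
    obtain ⟨hv, hw, ha, hne⟩ := (hX v w).1 h
    refine (hX w v).2 ⟨hw, hv, hal v hv w hw ha, fun e => hne ?_⟩
    rw [← e, (hm _ (hp w hw v hv (hal v hv w hw ha))).2.1]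
  · intro v w h
    obtain ⟨hv, hw, ha, -⟩ := (hX v w).1 h
    exact ⟨hv, hw, ha⟩
  · intro v hv w hw ha hf
    refine (hX v w).2 ⟨hv, hw, ha, fun e => ?_⟩
    rcases hport v w (hp v hv w hw ha) with g | ⟨i, -, g⟩
    · have := hfo v hv w hw hf
      rcases g.2 with g | g <;> simp_all
    · simp [e] at g
  · intro v hv
    have hc : ∀ i, i < lo v → i ≤ V.length → ∃ w, w ∈ V ∧ X v w = true ∧
        m (v, some w, 0) = (v, none, i) := by
      intro i h1 h2
      have hS : (v, none, i) ∈ S :=
        hT _ (List.mem_append_right _ (mem_copies.2 ⟨v, hv, i, h1, h2, rfl⟩))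
      obtain ⟨-, g2, g3⟩ := hm _ hS
      rcases g3.2 with g | g
      · obtain ⟨v', -, w', -, -, e, -⟩ := mem_gedges.1 g
        simp at e
      · obtain ⟨v', -, w', hw', ha, e, g⟩ := mem_gedges.1 g
        rcases g with g | ⟨j, -, -, g⟩
        · simp at g
        · simp only [Prod.mk.injEq, true_and] at g
          obtain ⟨rfl, rfl⟩ := g
          rw [e] at g2
          exact ⟨w', hw', (hX _ _).2 ⟨hv, hw', ha, by simp [g2]⟩, g2⟩
    have : Nonempty α := ⟨v⟩
    choose! f hf1 hf2 hf3 using hc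
    have h1 := Finset.card_le_card_of_injOn (s := Finset.range (min (lo v) (V.length + 1)))
      (t := V.toFinset.filter fun w => X v w = true) f (by
        intro i hi'
        have : i < lo v ∧ i ≤ V.length := by simpa [Nat.lt_succ_iff] using hi'
        simp [hf1 i this.1 this.2, hf2 i this.1 this.2]) (by
        intro i hi' j hj e
        have h1 : i < lo v ∧ i ≤ V.length := by simpa [Nat.lt_succ_iff] using hi'
        have h2 : j < lo v ∧ j ≤ V.length := by simpa [Nat.lt_succ_iff] using hj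
        have h3 := hf3 i h1.1 h1.2
        rw [e, hf3 j h2.1 h2.2] at h3
        simpa using h3.symm)
    have h2 : (V.toFinset.filter fun w => X v w = true).card ≤ V.length :=
      (Finset.card_filter_le _ _).trans (List.toFinset_card_le V)
    rw [Finset.card_range] at h1
    omega
  · intro v hv
    have h1 := Finset.card_le_card_of_injOn (s := V.toFinset.filter fun w => X v w = true)
      (t := Finset.range (hi v)) (fun w => (m (v, some w, 0)).2.2) (by
        intro w hw
        obtain ⟨-, hw', ha, hne⟩ := (hX v w).1 (Finset.mem_filter.1 hw).2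
        rcases hport v w (hp v hv w hw' ha) with g | ⟨i, g1, g⟩
        · exact absurd g.1 hne
        · simp [g, g1]) (by
        intro w hw w' hw' e
        obtain ⟨-, h1, ha, hne⟩ := (hX v w).1 (Finset.mem_filter.1 hw).2
        obtain ⟨-, h1', ha', hne'⟩ := (hX v w').1 (Finset.mem_filter.1 hw').2
        rcases hport v w (hp v hv w h1 ha) with g | ⟨i, -, g⟩
        · exact absurd g.1 hne
        rcases hport v w' (hp v hv w' h1' ha') with g' | ⟨j, -, g'⟩
        · exact absurd g'.1 hne'
        simp only [g, g'] at e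
        subst e
        have h2 := (hm _ (hp v hv w h1 ha)).2.1
        rw [g, ← g', (hm _ (hp v hv w' h1' ha')).2.1] at h2
        simpa using h2.symm)
    simpa using h1

theorem matching_of_sol (hal : ∀ v ∈ V, ∀ w ∈ V, al v w = true → al w v = true)
    (hirr : ∀ v ∈ V, al v v = false) {X : α → α → Bool} (h : Sol V al fo lo hi X) :
    ∃ S, PM (Adj (gedges V al fo hi)) S ∧ ∀ t ∈ ports V al ++ copies V lo, t ∈ S := by
  set l : α → List α := fun v => (V.toFinset.filter fun w => X v w = true).toList with hl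
  have l1 : ∀ v w, w ∈ l v ↔ X v w = true := fun v w => by
    simp only [hl, Finset.mem_toList, Finset.mem_filter, List.mem_toFinset]
    exact ⟨fun h => h.2, fun g => ⟨(h.sub v w g).2.1, g⟩⟩
  have l2 : ∀ v, (l v).Nodup := fun v => Finset.nodup_toList _
  have l3 : ∀ v ∈ V, lo v ≤ (l v).length ∧ (l v).length ≤ hi v ∧ (l v).length ≤ V.length := by
    intro v hv
    simp only [hl, Finset.length_toList]
    exact ⟨h.lo_le v hv, h.le_hi v hv,
      (Finset.card_filter_le _ _).trans (List.toFinset_card_le V)⟩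
  refine ⟨{x | x ∈ ports V al ∨ ∃ v ∈ V, ∃ i < (l v).length, x = (v, none, i)},
    ⟨fun x => x.2.1.elim (x.1, (l x.1)[x.2.2]?, 0)
      (fun w => if X x.1 w = true then (x.1, none, (l x.1).idxOf w) else (w, some x.1, 0)), ?_⟩, ?_⟩
  · rintro x (hx | ⟨v, hv, i, hi', rfl⟩)
    · obtain ⟨v, hv, w, hw, ha, rfl⟩ := mem_ports.1 hx
      by_cases hX : X v w = true
      · have h1 : (l v).idxOf w < (l v).length := List.idxOf_lt_length_iff.2 ((l1 v w).2 hX)
        have h2 := l3 v hv
        simp only [Option.elim, hX, if_true]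
        refine ⟨Or.inr ⟨v, hv, _, h1, rfl⟩, by simp [h1], by simp,
          Or.inl (mem_gedges.2 ⟨v, hv, w, hw, ha, rfl, Or.inr ⟨_, by omega, by omega, rfl⟩⟩)⟩
      · have hX' : ¬ X w v = true := fun g => hX (h.symm _ _ g)
        simp only [Option.elim, hX, hX', Bool.false_eq_true, if_false]
        refine ⟨Or.inl (mem_ports.2 ⟨w, hw, v, hv, hal v hv w hw ha, rfl⟩), trivial, ?_,
          Or.inl (mem_gedges.2 ⟨v, hv, w, hw, ha, rfl, Or.inl ⟨?_, rfl⟩⟩)⟩
        · intro e
          obtain rfl : v = w := (Prod.mk.inj e).1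
          simp [hirr v hv] at ha
        · by_contra hf
          exact hX (h.forced v hv w hw ha (by simpa using hf))
    · have h1 : X v (l v)[i] = true := (l1 _ _).1 (List.getElem_mem hi')
      obtain ⟨-, h2, h3⟩ := h.sub _ _ h1
      have h4 := l3 v hv
      simp only [Option.elim, List.getElem?_eq_getElem hi', h1, if_true]
      refine ⟨Or.inl (mem_ports.2 ⟨v, hv, _, h2, h3, rfl⟩), by rw [(l2 v).idxOf_getElem], by simp,
        Or.inr (mem_gedges.2 ⟨v, hv, _, h2, h3, rfl, Or.inr ⟨_, by omega, by omega, rfl⟩⟩)⟩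
  · intro t ht
    rcases List.mem_append.1 ht with ht | ht
    · exact Or.inl ht
    · obtain ⟨v, hv, i, h1, -, rfl⟩ := mem_copies.1 ht
      exact Or.inr ⟨v, hv, i, h1.trans_le (l3 v hv).1, rfl⟩

omit [DecidableEq α] in
theorem must_subset : ∀ t ∈ ports V al ++ copies V lo,
    t ∈ ports V al ++ copies V fun _ => V.length + 1 := by
  intro t ht
  rcases List.mem_append.1 ht with ht | ht
  · exact List.mem_append_left _ ht
  · obtain ⟨v, hv, i, -, h1, rfl⟩ := mem_copies.1 ht
    exact List.mem_append_right _ (mem_copies.2 ⟨v, hv, i, by omega, h1, rfl⟩)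

theorem dcs_some (hal : ∀ v ∈ V, ∀ w ∈ V, al v w = true → al w v = true)
    (hfo : ∀ v ∈ V, ∀ w ∈ V, fo v w = true → fo w v = true) {L : List (α × α)}
    (h : dcs V al fo lo hi = some L) : Sol V al fo lo hi (fun v w => decide ((v, w) ∈ L)) := by
  obtain ⟨M, hM, rfl⟩ := Option.map_eq_some_iff.1 h
  obtain ⟨S, h1, h2⟩ := cover_some must_subset hM
  refine sol_of_matching hal hfo (m := fun x => (mt M (x, false)).1) h1 h2 fun v w => ?_
  simp only [decide_eq_true_eq, List.mem_flatMap, List.mem_map, List.mem_filter, Prod.mk.injEq,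
    Bool.and_eq_true]
  constructor
  · rintro ⟨v', hv, w', ⟨hw, h3, h4⟩, rfl, rfl⟩
    exact ⟨hv, hw, h3, h4⟩
  · rintro ⟨hv, hw, h3, h4⟩
    exact ⟨v, hv, w, ⟨hw, h3, h4⟩, rfl, rfl⟩

theorem dcs_isSome_iff (hal : ∀ v ∈ V, ∀ w ∈ V, al v w = true → al w v = true)
    (hirr : ∀ v ∈ V, al v v = false)
    (hfo : ∀ v ∈ V, ∀ w ∈ V, fo v w = true → fo w v = true) :
    (dcs V al fo lo hi).isSome = true ↔ ∃ X, Sol V al fo lo hi X := by
  constructor
  · intro h
    obtain ⟨L, hL⟩ := Option.isSome_iff_exists.1 h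
    exact ⟨_, dcs_some hal hfo hL⟩
  · rintro ⟨X, hX⟩
    have := (cover_iff (W := ports V al ++ copies V fun _ => V.length + 1) ?_ must_subset).2
      (matching_of_sol hal hirr hX)
    · simpa [dcs, cover] using this
    · intro x y hxy
      rcases hxy.2 with g | g
      · obtain ⟨v, hv, w, hw, ha, rfl, -⟩ := mem_gedges.1 g
        exact List.mem_append_left _ (mem_ports.2 ⟨v, hv, w, hw, ha, rfl⟩)
      · obtain ⟨v, hv, w, hw, ha, -, ⟨-, rfl⟩ | ⟨i, -, h1, rfl⟩⟩ := mem_gedges.1 g
        · exact List.mem_append_left _ (mem_ports.2 ⟨w, hw, v, hv, hal v hv w hw ha, rfl⟩)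
        · exact List.mem_append_right _ (mem_copies.2 ⟨v, hv, i, by omega, h1, rfl⟩)

end

/-! ### Running time -/

variable [N487b59b3 α] {A : Type} [N487b59b3 A]

omit [DecidableEq α] in
@[fun_prop] theorem ports_pt {V : A → List α} {al : A → α → α → Bool} (hV : PT V)
    (hal : PT (fun p : A × α × α => al p.1 p.2.1 p.2.2)) : PT (fun a => ports (V a) (al a)) := by
  unfold ports
  refine PT.flatMap hV (PT.map (PT.filter (by fun_prop) ?_) (by fun_prop))
  exact hal.comp' (f := fun p : (A × α) × α => (p.1.1, p.1.2, p.2)) (by fun_prop)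

omit [DecidableEq α] in
@[fun_prop] theorem copies_pt {V : A → List α} {k : A → α → ℕ} (hV : PT V)
    (hk : PT (fun p : A × α => k p.1 p.2)) : PT (fun a => copies (V a) (k a)) := by
  unfold copies
  refine PT.flatMap hV (PT.map (PT.range (PT.min hk (by fun_prop)) (by fun_prop)) (by fun_prop))

omit [DecidableEq α] in
@[fun_prop] theorem gedges_pt {V : A → List α} {al fo : A → α → α → Bool} {hi : A → α → ℕ}
    (hV : PT V) (hal : PT (fun p : A × α × α => al p.1 p.2.1 p.2.2))
    (hfo : PT (fun p : A × α × α => fo p.1 p.2.1 p.2.2))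
    (hhi : PT (fun p : A × α => hi p.1 p.2)) :
    PT (fun a => gedges (V a) (al a) (fo a) (hi a)) := by
  unfold gedges
  refine PT.flatMap hV (PT.flatMap (PT.filter (by fun_prop) ?_) (PT.append (PT.ite
    (PT.decide_bool ?_) (by fun_prop) (by fun_prop)) (PT.map (PT.range (PT.min ?_ (by fun_prop))
    (by fun_prop)) (by fun_prop))))
  · exact hal.comp' (f := fun p : (A × α) × α => (p.1.1, p.1.2, p.2)) (by fun_prop)
  · exact hfo.comp' (f := fun p : (A × α) × α => (p.1.1, p.1.2, p.2)) (by fun_prop)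
  · exact hhi.comp' (f := fun p : (A × α) × α => (p.1.1, p.1.2)) (by fun_prop)

@[fun_prop] theorem dcs_pt {V : A → List α} {al fo : A → α → α → Bool} {lo hi : A → α → ℕ}
    (hV : PT V) (hal : PT (fun p : A × α × α => al p.1 p.2.1 p.2.2))
    (hfo : PT (fun p : A × α × α => fo p.1 p.2.1 p.2.2))
    (hlo : PT (fun p : A × α => lo p.1 p.2)) (hhi : PT (fun p : A × α => hi p.1 p.2)) :
    PT (fun a => dcs (V a) (al a) (fo a) (lo a) (hi a)) := by
  have h1 := ports_pt hV hal
  have h2 := copies_pt hV hlo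
  have h3 := copies_pt (k := fun a _ => (V a).length + 1) hV (by fun_prop)
  have h4 := gedges_pt hV hal hfo hhi
  unfold dcs dblE
  refine PT.omap (pmatch_pt (by fun_prop) (by fun_prop)) ?_
  refine PT.flatMap (by fun_prop) (PT.map (PT.filter (by fun_prop) (PT.and ?_ (by fun_prop)))
    (by fun_prop))
  exact hal.comp' (f := fun p : ((A × _) × α) × α => (p.1.1.1, p.1.2, p.2)) (by fun_prop)

end Pool.Agent.Shared.Blossom
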