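import Pool.Agent.Shared.Blossom.Tree
import Pool.Agent.Shared.PolyTime

/-!
The blossom-shrinking test for an augmenting path from a given exposed vertex, as a program on
edge lists, with its correctness and its polynomial running time.
-/

namespace Pool.Agent.Shared.Blossom

open Pool.Agent.Shared.PolyTime Function

variable {α : Type}

/-- Adjacency in the simple graph given by an edge list. -/
def Adj (E : List (α × α)) (x y : α) : Prop := x ≠ y ∧ ((x, y) ∈ E ∨ (y, x) ∈ E)

theorem Adj.symm {E : List (α × α)} {x y : α} (h : Adj E x y) : Adj E y x :=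
  ⟨h.1.symm, h.2.symm⟩

theorem Adj.irr (E : List (α × α)) (x : α) : ¬ Adj E x x := fun h => h.1 rfl

variable [DecidableEq α]

/-- The partner function of an association list. -/
def mt (M : List (α × α)) (x : α) : α := (M.lookup x).getD x

theorem mt_nil (x : α) : mt [] x = x := rfl

theorem mt_cons (a b : α) (M : List (α × α)) (x : α) :
    mt ((a, b) :: M) x = if x = a then b else mt M x := by
  by_cases h : x = a
  · simp [mt, List.lookup, h]
  · have : (x == a) = false := by simpa using h
    simp [mt, List.lookup, h, this]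

theorem mt_mem (M : List (α × α)) (x : α) : mt M x = x ∨ (x, mt M x) ∈ M := by
  induction M with
  | nil => exact Or.inl rfl
  | cons p M ih =>
    obtain ⟨a, b⟩ := p
    rw [mt_cons]
    split_ifs with h
    · simp [h]
    · exact ih.imp id (List.mem_cons_of_mem _)

theorem mt_filter (M : List (α × α)) (C : List α) (x : α) :
    mt (M.filter fun p => !decide (p.1 ∈ C)) x = if x ∈ C then x else mt M x := by
  induction M with
  | nil => simp [mt_nil]
  | cons p M ih =>
    obtain ⟨a, b⟩ := p
    by_cases ha : a ∈ C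
    · rw [List.filter_cons_of_neg (by simpa using ha), ih, mt_cons]
      by_cases hx : x = a
      · simp [hx, ha]
      · simp [hx]
    · rw [List.filter_cons_of_pos (by simpa using ha), mt_cons, mt_cons, ih]
      by_cases hx : x = a
      · simp [hx, ha]
      · simp [hx]

/-- State of the search: graph, matching, tree, answer. -/
abbrev AS (α : Type) := List (α × α) × List (α × α) × List (α × α) × Option Bool

/-- Contract the blossom `c.2.2` into its base `c.1`. -/
def contract (E M : List (α × α)) (c : α × α × List α) : AS α :=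
  (E.map fun f => (if f.1 ∈ c.2.2 then c.1 else f.1, if f.2 ∈ c.2.2 then c.1 else f.2),
    M.filter fun p => !decide (p.1 ∈ c.2.2), [], none)

/-- One round of the search. -/
def astep (r : α) (s : AS α) : AS α :=
  if s.2.2.2.isSome then s else
    ((s.1 ++ s.1.map Prod.swap).find? fun e => decide (e.1 ≠ e.2) &&
      (decide (e.1 ∈ outer r s.2.2.1) && !decide (e.2 ∈ inner (mt s.2.1) s.2.2.1))).elim
      (s.1, s.2.1, s.2.2.1, some false)
      fun e => if e.2 ∈ outer r s.2.2.1 then
          contract s.1 s.2.1 (s.2.2.1.foldl (cstep (mt s.2.1)) (e.1, e.2, []))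
        else if mt s.2.1 e.2 = e.2 then (s.1, s.2.1, s.2.2.1, some true)
        else (s.1, s.2.1, (mt s.2.1 e.2, e.1) :: s.2.2.1, none)

/-- The test: is there a matching covering `r` and all vertices covered by `M`? -/
def aug (E M : List (α × α)) (r : α) : Bool :=
  ((astep r)^[(M.length + 1) * (M.length + 1)] (E, M, [], none)).2.2.2.getD false

omit [DecidableEq α] in
theorem adj_iff {E : List (α × α)} {x y : α} :
    Adj E x y ↔ x ≠ y ∧ (x, y) ∈ E ++ E.map Prod.swap := by
  simp [Adj]

omit [DecidableEq α] in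
theorem adj_map {E : List (α × α)} (ρ : α → α) (x' y' : α) :
    Adj (E.map fun f => (ρ f.1, ρ f.2)) x' y' ↔
      x' ≠ y' ∧ ∃ x y, Adj E x y ∧ ρ x = x' ∧ ρ y = y' := by
  simp only [Adj, List.mem_map, Prod.mk.injEq, Prod.exists]
  constructor
  · rintro ⟨h, ⟨a, b, h1, rfl, rfl⟩ | ⟨a, b, h1, rfl, rfl⟩⟩
    · exact ⟨h, a, b, ⟨fun e => h (by rw [e]), Or.inl h1⟩, rfl, rfl⟩
    · exact ⟨h, b, a, ⟨fun e => h (by rw [e]), Or.inr h1⟩, rfl, rfl⟩
  · rintro ⟨h, x, y, ⟨-, h1 | h1⟩, rfl, rfl⟩
    · exact ⟨h, Or.inl ⟨x, y, h1, rfl, rfl⟩⟩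
    · exact ⟨h, Or.inr ⟨y, x, h1, rfl, rfl⟩⟩

theorem Tree.length_le {G : α → α → Prop} {M L : List (α × α)} {r : α}
    (hT : Tree G (mt M) r L) : L.length ≤ M.length := by
  have h1 : (L.map Prod.fst).Nodup := (List.nodup_cons.1 hT.nodup).2
  have h2 : L.map Prod.fst ⊆ M.map Prod.fst := by
    intro x hx
    obtain ⟨p, hp, rfl⟩ := List.mem_map.1 hx
    exact List.mem_map.2 ⟨_, (mt_mem M p.1).resolve_left (hT.matched p hp), rfl⟩
  simpa using (h1.subperm h2).length_le

/-- Invariant of the search. -/
structure AInv (G : α → α → Prop) (m : α → α) (r : α) (n : ℕ) (s : AS α) : Prop where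
  ctx : Ctx (Adj s.1) (mt s.2.1) r
  tree : Tree (Adj s.1) (mt s.2.1) r s.2.2.1
  aug : Aug (Adj s.1) (mt s.2.1) r → Aug G m r
  fail : Fail (Adj s.1) (mt s.2.1) r → Fail G m r
  yes : s.2.2.2 = some true → Aug G m r
  no : s.2.2.2 = some false → Fail G m r
  len : s.2.1.length ≤ n

/-- Termination measure of the search. -/
def ameas (n : ℕ) (s : AS α) : ℕ :=
  if s.2.2.2.isSome then 0 else s.2.1.length * (n + 1) + (n - s.2.2.1.length) + 1

theorem astep_spec {G : α → α → Prop} {m : α → α} {r : α} {n : ℕ} {s : AS α}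
    (h : AInv G m r n s) : AInv G m r n (astep r s) ∧ ameas n (astep r s) ≤ ameas n s - 1 := by
  obtain ⟨E, M, L, res⟩ := s
  obtain ⟨hc, hT, ha, hf, hy, hn, hl⟩ := h
  simp only at hc hT ha hf hy hn hl
  have hLM := hT.length_le
  unfold astep
  rcases res with _ | b
  swap
  · exact ⟨⟨hc, hT, ha, hf, hy, hn, hl⟩, by simp [ameas]⟩
  simp only [Option.isSome_none, Bool.false_eq_true, if_false]
  rcases hfind : List.find? _ (E ++ E.map Prod.swap) with _ | ⟨v, w⟩
  · refine ⟨⟨hc, hT, ha, hf, by simp, fun _ => hf (hT.fail hc fun v hv w hvw => ?_), hl⟩,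
      by simp [ameas]⟩
    have := List.find?_eq_none.1 hfind (v, w) (adj_iff.1 hvw).2
    simpa [hvw.1, hv] using this
  · have h1 := List.find?_some hfind
    have h2 := List.mem_of_find?_eq_some hfind
    simp only [Bool.and_eq_true, decide_eq_true_eq, Bool.not_eq_true', decide_eq_false_iff_not]
      at h1
    obtain ⟨hne, hv, hw⟩ := h1
    have hG : Adj E v w := adj_iff.2 ⟨hne, h2⟩
    simp only [Option.elim]
    split_ifs with hwo hww
    · obtain ⟨L', hT', hC, hne'⟩ := climb_spec hc hT v w []
        ⟨hv, hwo, by simp, by simp, fun _ => (PM.pair hG hG.symm).congr (by simp), by simp⟩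
      generalize List.foldl (cstep (mt M)) (v, w, []) L = c at hC hne'
      obtain ⟨h3, h4, h5⟩ := contract_spec hc hT' hC
        (adj_map (E := E) (fun x => if x ∈ c.2.2 then c.1 else x)) (mt_filter M c.2.2)
      have hlt : (M.filter fun p => !decide (p.1 ∈ c.2.2)).length < M.length := by
        obtain ⟨z, hz⟩ := List.exists_mem_of_ne_nil c.2.2 (fun e => hne (hne' e).1)
        refine List.length_filter_lt_length_iff_exists.2 ⟨_,
          (mt_mem M z).resolve_left (hC.cl z hz).2, by simpa using hz⟩
      refine ⟨⟨h3, Tree.nil, fun h => ha (h4 h), fun h => hf (h5 h), by simp [contract],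
        by simp [contract], hlt.le.trans hl⟩, ?_⟩
      simp only [ameas, contract, Option.isSome_none, Bool.false_eq_true, if_false, List.length_nil]
      have := Nat.mul_le_mul_right (n + 1) (Nat.succ_le_of_lt hlt)
      rw [Nat.succ_mul] at this
      omega
    · exact ⟨⟨hc, hT, ha, hf, fun _ => ha (hT.aug hc hv hwo hww hG), by simp, hl⟩, by simp [ameas]⟩
    · have hT' := hT.grow hc hv hwo hw hww hG
      have := hT'.length_le
      refine ⟨⟨hc, hT', ha, hf, by simp, by simp, hl⟩, ?_⟩
      simp only [ameas, Option.isSome_none, Bool.false_eq_true, if_false, List.length_cons] at this ⊢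
      omega

theorem aug_iff {E M : List (α × α)} {r : α} (hc : Ctx (Adj E) (mt M) r) :
    aug E M r = true ↔ Aug (Adj E) (mt M) r := by
  have key : ∀ i, AInv (Adj E) (mt M) r M.length ((astep r)^[i] (E, M, [], none)) ∧
      ameas M.length ((astep r)^[i] (E, M, [], none)) ≤ (M.length + 1) * (M.length + 1) - i := by
    intro i
    induction i with
    | zero =>
      refine ⟨⟨hc, Tree.nil, id, id, by simp, by simp, le_rfl⟩, ?_⟩
      simp only [ameas, iterate_zero, id, Option.isSome_none, Bool.false_eq_true, if_false,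
        List.length_nil, Nat.sub_zero]
      nlinarith
    | succ i ih =>
      rw [iterate_succ_apply']
      obtain ⟨h1, h2⟩ := astep_spec ih.1
      exact ⟨h1, by have := ih.2; omega⟩
  obtain ⟨h1, h2⟩ := key ((M.length + 1) * (M.length + 1))
  unfold aug
  generalize (astep r)^[(M.length + 1) * (M.length + 1)] (E, M, [], none) = s at h1 h2
  rcases hs : s.2.2.2 with _ | b
  · simp [ameas, hs] at h2
  · cases b
    · simpa using (h1.no hs).not_aug hc
    · simpa using h1.yes hs

/-! ### Running time -/

variable [N487b59b3 α] {A : Type} [N487b59b3 A]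

@[fun_prop] theorem mt_pt {M : A → List (α × α)} {x : A → α} (hM : PT M) (hx : PT x) :
    PT (fun a => mt (M a) (x a)) := by unfold mt; fun_prop

theorem sz_mt (M : List (α × α)) (x : α) : sz (mt M x) ≤ max (sz M) (sz x) := by
  rcases mt_mem M x with h | h
  · rw [h]; omega
  · have := sz_mem h
    rw [sz_pair] at this
    omega

omit [DecidableEq α] in
@[fun_prop] theorem outer_pt {L : A → List (α × α)} {r : A → α} (hr : PT r) (hL : PT L) :
    PT (fun a => outer (r a) (L a)) := by unfold outer; fun_prop

omit [DecidableEq α] in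
@[fun_prop] theorem inner_pt {L : A → List (α × α)} {m : A → α → α}
    (hm : PT (fun p : A × α => m p.1 p.2)) (hL : PT L) : PT (fun a => inner (m a) (L a)) :=
  PT.map hL (hm.comp' (f := fun p : A × α × α => (p.1, p.2.1)) (by fun_prop))

theorem climb_pt {M L : A → List (α × α)} {s : A → α × α × List α} (hM : PT M) (hL : PT L)
    (hs : PT s) : PT (fun a => (L a).foldl (cstep (mt (M a))) (s a)) := by
  refine PT.foldl_grow (by unfold cstep; fun_prop) hL hs
    (g := fun a => 4 * sz (L a) + 2 * sz (M a) + 4) (by fun_prop) fun a s p hp => ?_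
  have h1 := sz_mem hp
  have h2 := sz_mt (M a) p.1
  rw [sz_prod p] at h1
  rw [sz_prod s, sz_prod s.2]
  unfold cstep
  split_ifs
  · rw [sz_prod s, sz_prod s.2]; omega
  · simp only [sz_pair, sz_cons]; omega
  · simp only [sz_pair, sz_cons]; omega
  · rw [sz_prod s, sz_prod s.2]; omega

@[fun_prop] theorem contract_pt {E M : A → List (α × α)} {c : A → α × α × List α} (hE : PT E)
    (hM : PT M) (hc : PT c) : PT (fun a => contract (E a) (M a) (c a)) := by
  unfold contract; fun_prop

theorem astep_pt : PT (fun p : α × AS α => astep p.1 p.2) := by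
  unfold astep
  refine PT.ite (by fun_prop) (by fun_prop) (PT.elim (by fun_prop) (by fun_prop) ?_)
  refine PT.ite (by fun_prop) (contract_pt (by fun_prop) (by fun_prop) ?_) (by fun_prop)
  exact climb_pt (by fun_prop) (by fun_prop) (by fun_prop)

omit [N487b59b3 α] in
theorem climb_fst (P : α → Prop) (m : α → α) (L : List (α × α)) (hL : ∀ p ∈ L, P p.2) :
    ∀ s : α × α × List α, P s.1 → P (L.foldl (cstep m) s).1 := by
  induction L with
  | nil => intro s h; exact h
  | cons p L ih =>
    intro s h
    refine ih (fun q hq => hL q (List.mem_cons_of_mem _ hq)) _ ?_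
    unfold cstep
    split_ifs
    · exact h
    · exact hL p List.mem_cons_self
    · exact h
    · exact h

omit [DecidableEq α] in
theorem sz_pairs_le {E : List (α × α)} {B : ℕ} (h : ∀ e ∈ E, sz e.1 ≤ B ∧ sz e.2 ≤ B) :
    sz E ≤ E.length * (2 * (3 * B + 1) + 1) :=
  sz_list_le fun e he => by have := h e he; rw [sz_prod e]; omega

theorem astep_size (r : α) (E M : List (α × α)) (i : ℕ) :
    let s := (astep r)^[i] (E, M, [], none)
    s.1.length = E.length ∧ (∀ e ∈ s.1, sz e.1 ≤ sz E + sz M ∧ sz e.2 ≤ sz E + sz M) ∧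
      s.2.1.Sublist M ∧ s.2.2.1.length ≤ i ∧
      (∀ e ∈ s.2.2.1, sz e.1 ≤ sz E + sz M ∧ sz e.2 ≤ sz E + sz M) := by
  induction i with
  | zero =>
    refine ⟨rfl, fun e he => ?_, List.Sublist.refl _, le_rfl, by simp⟩
    have := sz_mem (show e ∈ E from he)
    rw [sz_prod e] at this
    omega
  | succ i ih =>
    rw [iterate_succ_apply']
    generalize (astep r)^[i] (E, M, [], none) = s at ih
    obtain ⟨h1, h2, h3, h4, h5⟩ := ih
    unfold astep
    split_ifs
    · exact ⟨h1, h2, h3, by omega, h5⟩
    rcases hfind : List.find? _ (s.1 ++ s.1.map Prod.swap) with _ | ⟨v, w⟩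
    · exact ⟨h1, h2, h3, by simp only [Option.elim]; omega, h5⟩
    have hvw : sz v ≤ sz E + sz M ∧ sz w ≤ sz E + sz M := by
      have h6 := List.mem_of_find?_eq_some hfind
      rcases List.mem_append.1 h6 with h | h
      · exact h2 _ h
      · exact (h2 (w, v) (by simpa using h)).symm
    simp only [Option.elim]
    split_ifs
    · have hb := climb_fst (fun x => sz x ≤ sz E + sz M) (mt s.2.1) s.2.2.1
        (fun p hp => (h5 p hp).2) (v, w, []) hvw.1
      refine ⟨by simp [contract, h1], ?_, List.filter_sublist.trans h3, by simp [contract],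
        by simp [contract]⟩
      intro e he
      obtain ⟨f, hf, rfl⟩ := List.mem_map.1 he
      have := h2 f hf
      constructor <;> simp only <;> split_ifs <;> tauto
    · exact ⟨h1, h2, h3, by simp only; omega, h5⟩
    · refine ⟨h1, h2, h3, by simp only [List.length_cons]; omega, fun e he => ?_⟩
      rcases List.mem_cons.1 he with rfl | he
      · have := sz_mt s.2.1 w
        have := sz_sublist h3
        simp only
        omega
      · exact h5 e he

@[fun_prop] theorem aug_pt {E M : A → List (α × α)} {r : A → α} (hE : PT E) (hM : PT M)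
    (hr : PT r) : PT (fun a => aug (E a) (M a) (r a)) := by
  unfold aug
  refine PT.getD (PT.snd (PT.snd (PT.snd ?_))) (by fun_prop)
  refine PT.iterate (f := fun a => astep (r a)) (astep_pt.comp' (f := fun p : A × AS α =>
    (r p.1, p.2)) (by fun_prop)) (by fun_prop) (by fun_prop) (by fun_prop)
    (B := fun a => 2 * ((E a).length * (2 * (3 * (sz (E a) + sz (M a)) + 1) + 1)) + 2 * sz (M a) +
      2 * ((((M a).length + 1) * ((M a).length + 1)) * (2 * (3 * (sz (E a) + sz (M a)) + 1) + 1))
        + 6) (by fun_prop) fun a i hi => ?_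
  obtain ⟨h1, h2, h3, h4, h5⟩ := astep_size (r a) (E a) (M a) i
  generalize (astep (r a))^[i] (E a, M a, [], none) = s at *
  have g1 := sz_pairs_le h2
  have g2 := sz_sublist h3
  have g3 := (sz_pairs_le h5).trans (Nat.mul_le_mul_right _ (h4.trans hi))
  have g4 : sz s.2.2.2 ≤ 3 := by rcases s.2.2.2 with _ | b <;> simp
  rw [h1] at g1
  rw [sz_prod s, sz_prod s.2, sz_prod s.2.2]
  omega

end Pool.Agent.Shared.Blossom
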