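import Pool.Agent.Shared.Blossom.Aug

/-!
Perfect matchings and matchings covering a prescribed set, in polynomial time.
-/

namespace Pool.Agent.Shared.Blossom

open Pool.Agent.Shared.PolyTime Function

variable {α : Type} [DecidableEq α]

/-- The association list `M` describes a matching of the graph with edge list `E`. -/
def IsM (E M : List (α × α)) : Prop :=
  (∀ x, mt M (mt M x) = x) ∧ ∀ x, mt M x ≠ x → Adj E x (mt M x)

theorem IsM.ctx {E M : List (α × α)} (h : IsM E M) {r : α} (hr : mt M r = r) :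
    Ctx (Adj E) (mt M) r := ⟨fun _ _ => Adj.symm, Adj.irr E, h.1, h.2, hr⟩

omit [DecidableEq α] in
theorem Adj.mono {E E' : List (α × α)} (h : E ⊆ E') {x y : α} (hxy : Adj E x y) : Adj E' x y :=
  ⟨hxy.1, hxy.2.imp (fun g => h g) (fun g => h g)⟩

omit [DecidableEq α] in
theorem Aug.mono {E E' : List (α × α)} (h : E ⊆ E') {m : α → α} {r : α} (ha : Aug (Adj E) m r) :
    Aug (Adj E') m r :=
  let ⟨S, hS, h1⟩ := ha; ⟨S, hS.mono fun _ _ _ _ g => g.mono h, h1⟩

/-- One round of edge deletion. -/
def pstep (M : List (α × α)) (r : α) (E' : List (α × α)) (e : α × α) : List (α × α) :=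
  if mt M e.1 = e.2 then E' else
    if aug (E'.filter fun f => decide (f ≠ e)) M r then E'.filter fun f => decide (f ≠ e) else E'

/-- The edges outside `M` that survive greedy deletion. -/
def newEdges (E M : List (α × α)) (r : α) : List (α × α) :=
  (E.foldl (pstep M r) E).filter fun e => decide (mt M e.1 ≠ e.2)

/-- The augmented matching. -/
def improve (E M : List (α × α)) (r : α) : List (α × α) :=
  (newEdges E M r ++ (newEdges E M r).map Prod.swap) ++ M

theorem pstep_sublist (M : List (α × α)) (r : α) (E' : List (α × α)) (e : α × α) :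
    (pstep M r E' e).Sublist E' := by
  unfold pstep
  split_ifs
  · exact List.Sublist.refl _
  · exact List.filter_sublist
  · exact List.Sublist.refl _

theorem prune_spec {M : List (α × α)} {r : α} (hr : mt M r = r) (l : List (α × α)) :
    ∀ E' : List (α × α), IsM E' M → Aug (Adj E') (mt M) r →
      IsM (l.foldl (pstep M r) E') M ∧ Aug (Adj (l.foldl (pstep M r) E')) (mt M) r ∧
      l.foldl (pstep M r) E' ⊆ E' ∧ ∀ e ∈ l, mt M e.1 ≠ e.2 → e ∈ l.foldl (pstep M r) E' →
        ¬ Aug (Adj ((l.foldl (pstep M r) E').filter fun f => decide (f ≠ e))) (mt M) r := by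
  induction l with
  | nil => intro E' h1 h2; exact ⟨h1, h2, fun _ h => h, by simp⟩
  | cons e l ih =>
    intro E' h1 h2
    rw [List.foldl_cons]
    have hM : mt M e.1 ≠ e.2 → IsM (E'.filter fun f => decide (f ≠ e)) M := by
      intro he
      refine ⟨h1.1, fun x hx => ⟨hx.symm, (h1.2 x hx).2.imp (fun g => ?_) (fun g => ?_)⟩⟩
      · refine List.mem_filter.2 ⟨g, ?_⟩
        simp only [decide_eq_true_eq]
        rintro rfl
        exact he rfl
      · refine List.mem_filter.2 ⟨g, ?_⟩
        simp only [decide_eq_true_eq]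
        rintro rfl
        exact he (h1.1 x)
    have h3 : IsM (pstep M r E' e) M ∧ Aug (Adj (pstep M r E' e)) (mt M) r ∧
        (mt M e.1 ≠ e.2 → e ∈ pstep M r E' e →
          ¬ Aug (Adj (E'.filter fun f => decide (f ≠ e))) (mt M) r) := by
      unfold pstep
      split_ifs with c1 c2
      · exact ⟨h1, h2, fun h => absurd c1 h⟩
      · exact ⟨hM c1, (aug_iff ((hM c1).ctx hr)).1 c2, by simp⟩
      · exact ⟨h1, h2, fun _ _ h => c2 ((aug_iff ((hM c1).ctx hr)).2 h)⟩
    obtain ⟨g1, g2, g3, g4⟩ := ih _ h3.1 h3.2.1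
    have g5 := (pstep_sublist M r E' e).subset
    refine ⟨g1, g2, List.Subset.trans g3 g5, fun f hf hfM hfE => ?_⟩
    rcases List.mem_cons.1 hf with rfl | hf
    · exact fun h => h3.2.2 hfM (g3 hfE) (h.mono (List.filter_subset _ (List.Subset.trans g3 g5)))
    · exact g4 f hf hfM hfE

theorem mt_append (M₁ M₂ : List (α × α)) (x : α) :
    (x, mt (M₁ ++ M₂) x) ∈ M₁ ∨ ((∀ y, (x, y) ∉ M₁) ∧ mt (M₁ ++ M₂) x = mt M₂ x) := by
  induction M₁ with
  | nil => simp
  | cons p M ih =>
    obtain ⟨a, b⟩ := p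
    rw [List.cons_append, mt_cons]
    split_ifs with h
    · simp [h]
    · rcases ih with ih | ih
      · exact Or.inl (List.mem_cons_of_mem _ ih)
      · exact Or.inr ⟨fun y => by simp [h, ih.1 y], ih.2⟩

theorem improve_spec {E M : List (α × α)} {r : α} (hr : mt M r = r) (hM : IsM E M)
    (ha : Aug (Adj E) (mt M) r) : IsM E (improve E M r) ∧ mt (improve E M r) r ≠ r ∧
      ∀ x, mt M x ≠ x → mt (improve E M r) x ≠ x := by
  obtain ⟨h1, ⟨S, ⟨n, hn⟩, hrS, hS⟩, h3, h4⟩ := prune_spec hr E E hM ha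
  unfold improve newEdges
  generalize E.foldl (pstep M r) E = P at *
  set F := P.filter fun e => decide (mt M e.1 ≠ e.2) with hF
  have k1 : ∀ x y, (x, y) ∈ F → x ∈ S ∧ n x = y := by
    intro x y hxy
    obtain ⟨g1, g2⟩ := List.mem_filter.1 hxy
    by_contra hcon
    refine h4 _ (h3 g1) (by simpa using g2) g1 ⟨S, ⟨n, fun u hu => ?_⟩, hrS, hS⟩
    obtain ⟨g3, g4, g5⟩ := hn u hu
    refine ⟨g3, g4, g5.1, g5.2.imp (fun g => List.mem_filter.2 ⟨g, ?_⟩)
      (fun g => List.mem_filter.2 ⟨g, ?_⟩)⟩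
    · simp only [decide_eq_true_eq]
      intro e
      obtain ⟨rfl, rfl⟩ := Prod.mk.inj e
      exact hcon ⟨hu, rfl⟩
    · simp only [decide_eq_true_eq]
      intro e
      obtain ⟨rfl, rfl⟩ := Prod.mk.inj e
      exact hcon ⟨g3, g4⟩
  have k2 : ∀ x y, (x, y) ∈ F ++ F.map Prod.swap → x ∈ S ∧ n x = y := by
    intro x y hxy
    rcases List.mem_append.1 hxy with h | h
    · exact k1 x y h
    · obtain ⟨g1, rfl⟩ := k1 y x (by simpa using h)
      exact ⟨(hn y g1).1, (hn y g1).2.1⟩
  have k3 : ∀ x ∈ S, (∀ y, (x, y) ∉ F ++ F.map Prod.swap) → n x = mt M x := by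
    intro x hx h
    by_contra hcon
    rcases (hn x hx).2.2.2 with g | g
    · exact h (n x) (List.mem_append_left _ (List.mem_filter.2 ⟨g, by simpa using Ne.symm hcon⟩))
    · refine h (n x) (List.mem_append_right _ (List.mem_map.2 ⟨(n x, x),
        List.mem_filter.2 ⟨g, ?_⟩, rfl⟩))
      simp only [decide_eq_true_eq]
      intro e
      exact hcon (by rw [← h1.1 (n x), e])
  have k4 : ∀ x, (x ∈ S ∧ mt ((F ++ F.map Prod.swap) ++ M) x = n x) ∨
      (x ∉ S ∧ mt ((F ++ F.map Prod.swap) ++ M) x = x) := by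
    intro x
    rcases mt_append (F ++ F.map Prod.swap) M x with h | h
    · exact Or.inl ⟨(k2 _ _ h).1, (k2 _ _ h).2.symm⟩
    · by_cases hx : x ∈ S
      · exact Or.inl ⟨hx, by rw [h.2, k3 x hx h.1]⟩
      · refine Or.inr ⟨hx, ?_⟩
        rw [h.2]
        by_contra hcon
        exact hx (hS x hcon)
  have k5 : ∀ x ∈ S, mt ((F ++ F.map Prod.swap) ++ M) x = n x := fun x hx =>
    ((k4 x).resolve_right fun h => h.1 hx).2
  refine ⟨⟨fun x => ?_, fun x hx => ?_⟩, ?_, fun x hx => ?_⟩
  · rcases k4 x with h | h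
    · rw [h.2, k5 _ (hn x h.1).1, (hn x h.1).2.1]
    · rw [h.2, h.2]
  · rcases k4 x with h | h
    · rw [h.2]; exact (hn x h.1).2.2.mono h3
    · exact absurd h.2 hx
  · rw [k5 r hrS]; exact (hn r hrS).2.2.1.symm
  · rw [k5 x (hS x hx)]; exact (hn x (hS x hx)).2.2.1.symm

/-- One round of the greedy covering loop. -/
def mstep (E : List (α × α)) (o : Option (List (α × α))) (r : α) : Option (List (α × α)) :=
  o.bind fun M => if mt M r = r then (if aug E M r then some (improve E M r) else none) else some M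

/-- Search for a matching covering all of `V`. -/
def pmatch (V : List α) (E : List (α × α)) : Option (List (α × α)) :=
  V.foldl (mstep E) (some [])

theorem foldl_mstep_none (E : List (α × α)) (V : List α) : V.foldl (mstep E) none = none := by
  induction V with
  | nil => rfl
  | cons v V ih => exact ih

theorem pmatch_aux (E : List (α × α)) (V : List α) : ∀ M, IsM E M →
    (∀ M', V.foldl (mstep E) (some M) = some M' → IsM E M' ∧ (∀ v ∈ V, mt M' v ≠ v) ∧
      ∀ v, mt M v ≠ v → mt M' v ≠ v) ∧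
    (V.foldl (mstep E) (some M) = none → ∀ S, PM (Adj E) S → (∀ v ∈ V, v ∈ S) →
      ¬ ∀ x y, Adj E x y → x ∈ S) := by
  induction V with
  | nil =>
    intro M hM
    refine ⟨fun M' h => ?_, by simp⟩
    obtain rfl : M = M' := by simpa using h
    exact ⟨hM, by simp, fun _ h => h⟩
  | cons r V ih =>
    intro M hM
    rw [List.foldl_cons]
    by_cases hr : mt M r = r
    · by_cases ha : aug E M r = true
      · have e : mstep E (some M) r = some (improve E M r) := by simp [mstep, hr, ha]
        rw [e]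
        obtain ⟨h1, h2, h3⟩ := improve_spec hr hM ((aug_iff (hM.ctx hr)).1 ha)
        obtain ⟨g1, g2⟩ := ih _ h1
        refine ⟨fun M' h => ?_, fun h S hS hV => g2 h S hS fun v hv => hV v (by simp [hv])⟩
        obtain ⟨g3, g4, g5⟩ := g1 M' h
        refine ⟨g3, fun v hv => ?_, fun v hv => g5 v (h3 v hv)⟩
        rcases List.mem_cons.1 hv with rfl | hv
        · exact g5 _ h2
        · exact g4 v hv
      · have e : mstep E (some M) r = none := by simp [mstep, hr, ha]
        rw [e, foldl_mstep_none]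
        refine ⟨by simp, fun _ S hS hV hE => ha ((aug_iff (hM.ctx hr)).2 ?_)⟩
        exact ⟨S, hS, hV r (by simp), fun x hx => hE _ _ (hM.2 x hx)⟩
    · have e : mstep E (some M) r = some M := by simp [mstep, hr]
      rw [e]
      obtain ⟨g1, g2⟩ := ih _ hM
      refine ⟨fun M' h => ?_, fun h S hS hV => g2 h S hS fun v hv => hV v (by simp [hv])⟩
      obtain ⟨g3, g4, g5⟩ := g1 M' h
      refine ⟨g3, fun v hv => ?_, g5⟩
      rcases List.mem_cons.1 hv with rfl | hv
      · exact g5 _ hr
      · exact g4 v hv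

theorem isM_nil (E : List (α × α)) : IsM E [] := ⟨fun _ => rfl, fun _ h => absurd rfl h⟩

theorem pmatch_some {V : List α} {E M : List (α × α)} (h : pmatch V E = some M) :
    IsM E M ∧ ∀ v ∈ V, mt M v ≠ v :=
  let ⟨h1, h2, _⟩ := (pmatch_aux E V [] (isM_nil E)).1 M h; ⟨h1, h2⟩

theorem pmatch_isSome_iff {V : List α} {E : List (α × α)} (hE : ∀ x y, Adj E x y → x ∈ V) :
    (pmatch V E).isSome = true ↔ PM (Adj E) {v | v ∈ V} := by
  constructor
  · intro h
    obtain ⟨M, hM⟩ := Option.isSome_iff_exists.1 h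
    obtain ⟨h1, h2⟩ := pmatch_some hM
    exact ⟨mt M, fun x hx => ⟨hE _ _ (h1.2 x (h2 x hx)).symm, h1.1 x, h1.2 x (h2 x hx)⟩⟩
  · intro h
    by_contra hcon
    exact (pmatch_aux E V [] (isM_nil E)).2 (by simpa [pmatch] using hcon) _ h (fun _ h => h) hE

/-- Edges of the doubled graph. -/
def dblE (W T : List α) (E : List (α × α)) : List ((α × Bool) × (α × Bool)) :=
  (E.flatMap fun e => [((e.1, false), (e.2, false)), ((e.1, true), (e.2, true))]) ++
    (W.filter fun v => !decide (v ∈ T)).map fun v => ((v, false), (v, true))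

/-- Is there a matching of the graph `(W, E)` covering all vertices of `T`? -/
def cover (W T : List α) (E : List (α × α)) : Bool :=
  (pmatch (W.flatMap fun v => [(v, false), (v, true)]) (dblE W T E)).isSome

theorem adj_dblE (W T : List α) (E : List (α × α)) (x y : α) (b c : Bool) :
    Adj (dblE W T E) (x, b) (y, c) ↔ (b = c ∧ Adj E x y) ∨ (b ≠ c ∧ x = y ∧ x ∈ W ∧ x ∉ T) := by
  cases b <;> cases c <;> simp [Adj, dblE] <;> grind

theorem cover_iff {W T : List α} {E : List (α × α)} (hE : ∀ x y, Adj E x y → x ∈ W)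
    (hT : ∀ t ∈ T, t ∈ W) : cover W T E = true ↔ ∃ S, PM (Adj E) S ∧ ∀ t ∈ T, t ∈ S := by
  have hV : ∀ x b, (x, b) ∈ W.flatMap (fun v => [(v, false), (v, true)]) ↔ x ∈ W := by
    intro x b; cases b <;> simp
  unfold cover
  rw [pmatch_isSome_iff]
  · constructor
    · rintro ⟨m, hm⟩
      refine ⟨{x | x ∈ W ∧ (m (x, false)).2 = false}, ⟨fun x => (m (x, false)).1, ?_⟩, ?_⟩
      · rintro x ⟨hx, hx'⟩
        obtain ⟨h1, h2, h3⟩ := hm (x, false) ((hV _ _).2 hx)
        rcases hy : m (x, false) with ⟨y, c⟩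
        rw [hy] at h1 h2 h3 hx'
        simp only at hx'
        subst hx'
        simp only [hy, Set.mem_ofPred_eq, h2]
        refine ⟨⟨(hV _ _).1 h1, trivial⟩, trivial, ?_⟩
        simpa using (adj_dblE _ _ _ _ _ _ _).1 h3
      · intro t ht
        refine ⟨hT t ht, ?_⟩
        obtain ⟨h1, h2, h3⟩ := hm (t, false) ((hV _ _).2 (hT t ht))
        rcases hy : m (t, false) with ⟨y, c⟩
        rw [hy] at h3
        rcases (adj_dblE _ _ _ _ _ _ _).1 h3 with h | h
        · exact h.1.symm
        · exact absurd ht h.2.2.2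
    · rintro ⟨S, ⟨m, hm⟩, hS⟩
      classical
      refine ⟨fun p => if p.1 ∈ S then (m p.1, p.2) else (p.1, !p.2), ?_⟩
      rintro ⟨x, b⟩ hx
      have hx' : x ∈ W := (hV _ _).1 hx
      by_cases h : x ∈ S
      · obtain ⟨h1, h2, h3⟩ := hm x h
        simp only [h, if_true, h1, h2, Set.mem_ofPred_eq, hV, adj_dblE]
        exact ⟨hE _ _ h3.symm, trivial, Or.inl ⟨trivial, h3⟩⟩
      · simp only [h, if_false, Set.mem_ofPred_eq, hV, adj_dblE, Bool.not_not]
        exact ⟨hx', trivial, Or.inr ⟨by simp, trivial, hx', fun ht => h (hS x ht)⟩⟩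
  · rintro ⟨x, b⟩ ⟨y, c⟩ h
    rw [hV]
    rcases (adj_dblE _ _ _ _ _ _ _).1 h with h | h
    · exact hE _ _ h.2
    · exact h.2.2.1

/-! ### Running time -/

variable [N487b59b3 α] {A : Type} [N487b59b3 A]

@[fun_prop] theorem newEdges_pt {E M : A → List (α × α)} {r : A → α} (hE : PT E) (hM : PT M)
    (hr : PT r) : PT (fun a => newEdges (E a) (M a) (r a)) := by
  unfold newEdges
  refine PT.filter ?_ (by fun_prop)
  exact PT.foldl_grow (by unfold pstep; fun_prop) hE hE (g := fun _ => 0) (by fun_prop)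
    fun a s x _ => sz_sublist (pstep_sublist _ _ _ _)

@[fun_prop] theorem improve_pt {E M : A → List (α × α)} {r : A → α} (hE : PT E) (hM : PT M)
    (hr : PT r) : PT (fun a => improve (E a) (M a) (r a)) := by
  unfold improve; fun_prop

omit [DecidableEq α] in
theorem sz_map_swap (F : List (α × α)) : sz (F.map Prod.swap) ≤ 2 * sz F := by
  induction F with
  | nil => simp
  | cons p F ih => obtain ⟨a, b⟩ := p; simp; omega

theorem sz_newEdges (E M : List (α × α)) (r : α) : sz (newEdges E M r) ≤ sz E := by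
  refine (sz_sublist List.filter_sublist).trans (sz_sublist ?_)
  have : ∀ (l E' : List (α × α)), (l.foldl (pstep M r) E').Sublist E' := by
    intro l
    induction l with
    | nil => intro E'; exact List.Sublist.refl _
    | cons e l ih => intro E'; exact (ih _).trans (pstep_sublist _ _ _ _)
  exact this _ _

@[fun_prop] theorem pmatch_pt {V : A → List α} {E : A → List (α × α)} (hV : PT V) (hE : PT E) :
    PT (fun a => pmatch (V a) (E a)) := by
  unfold pmatch
  refine PT.foldl_grow (by unfold mstep; fun_prop) hV (by fun_prop) (g := fun a => 6 * sz (E a))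
    (by fun_prop) fun a s x _ => ?_
  rcases s with _ | M
  · simp [mstep]
  · have h1 := sz_newEdges (E a) M x
    have h2 := sz_map_swap (newEdges (E a) M x)
    simp only [mstep, Option.bind_some]
    split_ifs <;> simp [improve]
    omega

@[fun_prop] theorem cover_pt {W T : A → List α} {E : A → List (α × α)} (hW : PT W) (hT : PT T)
    (hE : PT E) : PT (fun a => cover (W a) (T a) (E a)) := by
  unfold cover dblE; fun_prop

end Pool.Agent.Shared.Blossom
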