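import Mathlib

/-!
Perfect matchings of vertex sets given as involutions, Tutte barriers, and the two lifting
lemmas for the contraction of a blossom.
-/

namespace Pool.Agent.Shared.Blossom

variable {α : Type}

/-- The graph `G` induced on `S` has a perfect matching. -/
def PM (G : α → α → Prop) (S : Set α) : Prop :=
  ∃ m : α → α, ∀ x ∈ S, m x ∈ S ∧ m (m x) = x ∧ G x (m x)

theorem PM.empty (G : α → α → Prop) : PM G ∅ := ⟨id, by simp⟩

theorem PM.congr {G : α → α → Prop} {S T : Set α} (h : PM G S) (e : ∀ x, x ∈ S ↔ x ∈ T) :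
    PM G T := (Set.ext e : S = T) ▸ h

theorem PM.mono {G G' : α → α → Prop} {S : Set α} (h : PM G S)
    (hG : ∀ x ∈ S, ∀ y ∈ S, G x y → G' x y) : PM G' S := by
  obtain ⟨m, hm⟩ := h
  exact ⟨m, fun x hx => ⟨(hm x hx).1, (hm x hx).2.1, hG _ hx _ (hm x hx).1 (hm x hx).2.2⟩⟩

theorem PM.pair {G : α → α → Prop} {a b : α} (h1 : G a b) (h2 : G b a) : PM G {a, b} := by
  classical
  refine ⟨fun x => if x = a then b else a, ?_⟩
  rintro x (rfl | rfl)
  · by_cases h : b = x <;> simp_all
  · by_cases h : x = a <;> simp_all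

theorem PM.union {G : α → α → Prop} {S T : Set α} (hS : PM G S) (hT : PM G T)
    (hd : ∀ x ∈ S, x ∉ T) : PM G (S ∪ T) := by
  classical
  obtain ⟨m, hm⟩ := hS
  obtain ⟨n, hn⟩ := hT
  refine ⟨fun x => if x ∈ S then m x else n x, ?_⟩
  rintro x (hx | hx)
  · obtain ⟨h1, h2, h3⟩ := hm x hx
    simp [hx, h1, h2, h3]
  · obtain ⟨h1, h2, h3⟩ := hn x hx
    have h4 : x ∉ S := fun h => hd x h hx
    have h5 : n x ∉ S := fun h => hd _ h h1
    simp [h1, h2, h3, h4, h5]

/-- Adding one disjoint edge. -/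
theorem PM.add {G : α → α → Prop} {S T : Set α} (hS : PM G S) {a b : α} (h1 : G a b) (h2 : G b a)
    (ha : a ∉ S) (hb : b ∉ S) (e : ∀ x, x ∈ T ↔ x ∈ S ∨ x = a ∨ x = b) : PM G T :=
  (hS.union (PM.pair h1 h2) (by rintro x hx (rfl | rfl) <;> contradiction)).congr fun x => by
    simp only [e, Set.mem_union, Set.mem_insert_iff, Set.mem_singleton_iff]

theorem even_card_of_invol [DecidableEq α] {F : Finset α} {m : α → α} (h1 : ∀ x ∈ F, m x ∈ F)
    (h2 : ∀ x ∈ F, m (m x) = x) (h3 : ∀ x ∈ F, m x ≠ x) : Even F.card := by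
  have : ∑ _x ∈ F, (1 : ZMod 2) = 0 :=
    Finset.sum_involution (fun x _ => m x) (fun _ _ => by decide) (fun x hx _ => h3 x hx)
      h1 h2
  rw [Finset.sum_const, nsmul_eq_mul, mul_one] at this
  exact (ZMod.natCast_eq_zero_iff_even).1 this

/-- A Tutte barrier: after deleting `A`, the set `D` splits into more than `|A|` odd parts with no
edge leaving a part. -/
def Barrier [DecidableEq α] (G : α → α → Prop) (D : Finset α) : Prop :=
  ∃ (A : Finset α) (rep : α → α), (∀ x ∈ D, x ∉ A) ∧
    (∀ x ∈ D, ∀ y, G x y → y ∈ A ∨ (y ∈ D ∧ rep y = rep x)) ∧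
    (∀ x ∈ D, Odd (D.filter (fun y => rep y = rep x)).card) ∧ A.card < (D.image rep).card

theorem Barrier.not_subset [DecidableEq α] {G : α → α → Prop} (hG : ∀ x, ¬ G x x) {D : Finset α}
    (hB : Barrier G D) {S : Set α} (hS : PM G S) : ¬ ∀ x ∈ D, x ∈ S := by
  intro hD
  obtain ⟨A, rep, -, h2, h3, h4⟩ := hB
  obtain ⟨m, hm⟩ := hS
  have key : ∀ k ∈ D.image rep, ∃ x ∈ D, rep x = k ∧ m x ∈ A := by
    intro k hk
    obtain ⟨x, hx, rfl⟩ := Finset.mem_image.1 hk
    by_contra hcon
    push Not at hcon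
    have : Even (D.filter (fun y => rep y = rep x)).card := by
      refine even_card_of_invol (m := m) ?_ ?_ ?_
      · intro y hy
        obtain ⟨hy1, hy2⟩ := Finset.mem_filter.1 hy
        rcases h2 y hy1 _ (hm y (hD y hy1)).2.2 with h | h
        · exact absurd h (hcon y hy1 hy2)
        · exact Finset.mem_filter.2 ⟨h.1, h.2.trans hy2⟩
      · intro y hy
        exact (hm y (hD y (Finset.mem_filter.1 hy).1)).2.1
      · intro y hy h
        have := (hm y (hD y (Finset.mem_filter.1 hy).1)).2.2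
        rw [h] at this
        exact hG y this
    exact (Nat.not_even_iff_odd.2 (h3 x hx)) this
  choose! f hf1 hf2 hf3 using key
  have := Finset.card_le_card_of_injOn (s := D.image rep) (t := A) (fun k => m (f k))
    (fun k hk => hf3 k hk) (by
      intro k hk k' hk' e
      have e2 : f k = f k' := by
        have := congrArg m e
        simp only at this
        rwa [(hm _ (hD _ (hf1 k hk))).2.1, (hm _ (hD _ (hf1 k' hk'))).2.1] at this
      rw [← hf2 k hk, ← hf2 k' hk', e2])
  omega

section Contract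

variable [DecidableEq α] {G G' : α → α → Prop} {C : Finset α} {b : α}

/-- Lifting a matching of the contracted graph that covers the base of the blossom. -/
theorem lift_success (hsym : ∀ x y, G x y → G y x) (hb : b ∉ C)
    (hG' : ∀ x' y', G' x' y' → x' ≠ y' ∧ ∃ x y, G x y ∧ (if x ∈ C then b else x) = x' ∧
      (if y ∈ C then b else y) = y')
    (hC0 : PM G C) (hC : ∀ c ∈ C, PM G {x | (x ∈ C ∧ x ≠ c) ∨ x = b})
    {S' : Set α} (hS' : PM G' S') (hbS : b ∈ S') : PM G (S' ∪ C) := by
  obtain ⟨m, hm⟩ := hS'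
  have hno : ∀ x' y', G' x' y' → x' ∉ C ∧ y' ∉ C := by
    intro x' y' h
    obtain ⟨-, x, y, -, h1, h2⟩ := hG' x' y' h
    constructor
    · rw [← h1]; split_ifs <;> assumption
    · rw [← h2]; split_ifs <;> assumption
  have hSC : ∀ x ∈ S', x ∉ C := fun x hx => (hno _ _ (hm x hx).2.2).1
  obtain ⟨hy1, hy2, hy3⟩ := hm b hbS
  obtain ⟨hne, x, y, hxy, hx, hy⟩ := hG' _ _ hy3
  have hyy : y = m b := by
    by_cases h : y ∈ C
    · rw [if_pos h] at hy; exact absurd hy hne
    · rwa [if_neg h] at hy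
  subst hyy
  have h1 : PM G {u | u ∈ S' ∧ u ≠ b ∧ u ≠ m b} := by
    refine ⟨m, fun u ⟨hu, hub, humb⟩ => ?_⟩
    obtain ⟨g1, g2, g3⟩ := hm u hu
    have g4 : m u ≠ b := fun h => humb (by rw [← h, g2])
    have g5 : m u ≠ m b := fun h => hub (by rw [← g2, h, hy2])
    refine ⟨⟨g1, g4, g5⟩, g2, ?_⟩
    obtain ⟨-, p, q, hpq, hp, hq⟩ := hG' _ _ g3
    have e1 : p = u := by
      by_cases h : p ∈ C
      · rw [if_pos h] at hp; exact absurd hp.symm hub
      · rwa [if_neg h] at hp
    have e2 : q = m u := by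
      by_cases h : q ∈ C
      · rw [if_pos h] at hq; exact absurd hq.symm g4
      · rwa [if_neg h] at hq
    rw [← e2, ← e1]
    exact hpq
  have hmb : m b ∉ C := hSC _ hy1
  by_cases hxC : x ∈ C
  · have h2 := h1.union (hC x hxC) (by
      rintro u ⟨hu, hub, -⟩ (h | h)
      · exact hSC u hu h.1
      · exact hub h)
    refine h2.add hxy (hsym _ _ hxy) ?_ ?_ fun u => ?_
    · rintro (h | h | h)
      · exact hSC x h.1 hxC
      · exact h.2 rfl
      · exact hb (h ▸ hxC)
    · rintro (h | h | h)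
      · exact h.2.2 rfl
      · exact hmb h.1
      · exact hne h.symm
    · simp only [Set.mem_union, Finset.mem_coe, Set.mem_ofPred_eq]
      grind
  · rw [if_neg hxC] at hx
    subst hx
    have h2 := h1.union hC0 (fun u hu => hSC u hu.1)
    refine h2.add hxy (hsym _ _ hxy) ?_ ?_ fun u => ?_
    · rintro (h | h)
      · exact h.2.1 rfl
      · exact hb h
    · rintro (h | h)
      · exact h.2.2 rfl
      · exact hmb h
    · simp only [Set.mem_union, Finset.mem_coe, Set.mem_ofPred_eq]
      grind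

/-- Lifting a barrier of the contracted graph that contains the base of the blossom. -/
theorem lift_barrier
    (hG' : ∀ x y, G x y → (if x ∈ C then b else x) ≠ (if y ∈ C then b else y) →
      G' (if x ∈ C then b else x) (if y ∈ C then b else y))
    (hC : Even C.card) {D' : Finset α} (hB : Barrier G' D') (hbD : b ∈ D')
    (hDC : ∀ x ∈ D', x ∉ C) : Barrier G (D' ∪ C) := by
  obtain ⟨A, rep, h1, h2, h3, h4⟩ := hB
  have hρ : ∀ x ∈ D' ∪ C, (if x ∈ C then b else x) ∈ D' := by
    intro x hx
    split_ifs with h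
    · exact hbD
    · simpa [h] using hx
  have hρ' : ∀ y, (if y ∈ C then b else y) ∈ D' → y ∈ D' ∪ C := by
    intro y hy
    by_cases h : y ∈ C
    · simp [h]
    · simpa [h] using hy
  refine ⟨A \ C, fun x => rep (if x ∈ C then b else x), ?_, ?_, ?_, ?_⟩
  · intro x hx hA
    rw [Finset.mem_sdiff] at hA
    rcases Finset.mem_union.1 hx with h | h
    · exact h1 x h hA.1
    · exact hA.2 h
  · intro x hx y hxy
    by_cases e : (if x ∈ C then b else x) = (if y ∈ C then b else y)
    · exact Or.inr ⟨hρ' y (e ▸ hρ x hx), by simp only [e]⟩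
    · rcases h2 _ (hρ x hx) _ (hG' x y hxy e) with h | h
      · left
        by_cases hy : y ∈ C
        · rw [if_pos hy] at h; exact absurd h (h1 b hbD)
        · rw [if_neg hy] at h; exact Finset.mem_sdiff.2 ⟨h, hy⟩
      · exact Or.inr ⟨hρ' y h.1, h.2⟩
  · intro x hx
    have h5 := h3 _ (hρ x hx)
    beta_reduce
    generalize rep (if x ∈ C then b else x) = k at h5 ⊢
    rw [Finset.filter_union, Finset.card_union_of_disjoint
      (Finset.disjoint_filter_filter (Finset.disjoint_left.2 hDC))]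
    have e1 : D'.filter (fun y => rep (if y ∈ C then b else y) = k) =
        D'.filter (fun y => rep y = k) :=
      Finset.filter_congr fun y hy => by rw [if_neg (hDC y hy)]
    have e2 : Even (C.filter (fun y => rep (if y ∈ C then b else y) = k)).card := by
      by_cases hk : rep b = k
      · rw [Finset.filter_true_of_mem fun y hy => by rw [if_pos hy, hk]]; exact hC
      · rw [Finset.filter_false_of_mem fun y hy => by rw [if_pos hy]; exact hk]; simp
    rw [e1]
    exact h5.add_even e2
  · refine lt_of_le_of_lt (Finset.card_le_card Finset.sdiff_subset) (lt_of_lt_of_le h4 ?_)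
    refine Finset.card_le_card fun k hk => ?_
    obtain ⟨x, hx, rfl⟩ := Finset.mem_image.1 hk
    exact Finset.mem_image.2 ⟨x, Finset.mem_union_left _ hx, by rw [if_neg (hDC x hx)]⟩

end Contract

end Pool.Agent.Shared.Blossom
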