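import Pool.Agent.Shared.Blossom.PM

/-!
Alternating trees stored as lists, and the climb that extracts a blossom.
-/

namespace Pool.Agent.Shared.Blossom

variable {α : Type}

/-- Outer vertices of the tree with root `r`. -/
def outer (r : α) (L : List (α × α)) : List α := r :: L.map Prod.fst

/-- Inner vertices of the tree. -/
def inner (m : α → α) (L : List (α × α)) : List α := L.map fun p => m p.1

/-- Vertices of the tree. -/
def InT (m : α → α) (r : α) (L : List (α × α)) (x : α) : Prop := x ∈ outer r L ∨ x ∈ inner m L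

theorem mem_outer_cons {r z v x : α} {L : List (α × α)} :
    x ∈ outer r ((z, v) :: L) ↔ x = z ∨ x ∈ outer r L := by
  simp only [outer, List.map_cons, List.mem_cons]; tauto

theorem mem_inner_cons {m : α → α} {z v x : α} {L : List (α × α)} :
    x ∈ inner m ((z, v) :: L) ↔ x = m z ∨ x ∈ inner m L := by
  simp only [inner, List.map_cons, List.mem_cons]

theorem inT_cons {m : α → α} {r z v x : α} {L : List (α × α)} :
    InT m r ((z, v) :: L) x ↔ x = z ∨ x = m z ∨ InT m r L x := by
  simp only [InT, mem_outer_cons, mem_inner_cons]; tauto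

/-- An alternating tree: an entry `(z, v)` adds the inner vertex `m z`, adjacent to the outer
vertex `v`, and the outer vertex `z`. -/
inductive Tree (G : α → α → Prop) (m : α → α) (r : α) : List (α × α) → Prop
  | nil : Tree G m r []
  | cons {L : List (α × α)} {z v : α} : Tree G m r L → v ∈ outer r L → G v (m z) → m z ≠ z →
      ¬ InT m r L z → ¬ InT m r L (m z) → Tree G m r ((z, v) :: L)

/-- `m` describes a matching of the symmetric graph `G` that leaves `r` exposed. -/
structure Ctx (G : α → α → Prop) (m : α → α) (r : α) : Prop where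
  sym : ∀ x y, G x y → G y x
  irr : ∀ x, ¬ G x x
  inv : ∀ x, m (m x) = x
  adj : ∀ x, m x ≠ x → G x (m x)
  root : m r = r

variable {G : α → α → Prop} {m : α → α} {r : α}

theorem Ctx.pm (h : Ctx G m r) {S : Set α} (hS : ∀ x ∈ S, m x ∈ S ∧ m x ≠ x) : PM G S :=
  ⟨m, fun x hx => ⟨(hS x hx).1, h.inv x, h.adj x (hS x hx).2⟩⟩

theorem Tree.matched {L : List (α × α)} (hT : Tree G m r L) : ∀ p ∈ L, m p.1 ≠ p.1 := by
  induction hT with
  | nil => simp
  | cons _ _ _ h _ _ ih =>
    intro p hp
    rcases List.mem_cons.1 hp with rfl | hp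
    · exact h
    · exact ih p hp

theorem Tree.closed (h : Ctx G m r) {L : List (α × α)} (hT : Tree G m r L) :
    ∀ x, InT m r L x → m x ≠ x ∨ x = r := by
  intro x hx
  rcases hx with hx | hx
  · rcases List.mem_cons.1 hx with rfl | hx
    · exact Or.inr rfl
    · obtain ⟨p, hp, rfl⟩ := List.mem_map.1 hx
      exact Or.inl (hT.matched p hp)
  · obtain ⟨p, hp, rfl⟩ := List.mem_map.1 hx
    left
    rw [h.inv]
    exact (hT.matched p hp).symm

theorem inT_mate (h : Ctx G m r) {L : List (α × α)} {x : α} (hx : InT m r L x) :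
    InT m r L (m x) := by
  rcases hx with hx | hx
  · rcases List.mem_cons.1 hx with rfl | hx
    · rw [h.root]; exact Or.inl (List.mem_cons_self)
    · obtain ⟨p, hp, rfl⟩ := List.mem_map.1 hx
      exact Or.inr (List.mem_map.2 ⟨p, hp, rfl⟩)
  · obtain ⟨p, hp, rfl⟩ := List.mem_map.1 hx
    rw [h.inv]
    exact Or.inl (List.mem_cons_of_mem _ (List.mem_map.2 ⟨p, hp, rfl⟩))

theorem Tree.disj {L : List (α × α)} (hT : Tree G m r L) : ∀ x ∈ outer r L, x ∉ inner m L := by
  induction hT with
  | nil => simp [inner]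
  | cons _ _ _ h h1 h2 ih =>
    intro x hx hx'
    rw [mem_outer_cons] at hx
    rw [mem_inner_cons] at hx'
    rcases hx with rfl | hx <;> rcases hx' with hx' | hx'
    · exact h hx'.symm
    · exact h1 (Or.inr hx')
    · exact h2 (Or.inl (hx' ▸ hx))
    · exact ih x hx hx'

theorem Tree.nodup {L : List (α × α)} (hT : Tree G m r L) : (outer r L).Nodup := by
  induction hT with
  | nil => simp [outer]
  | @cons L z v _ _ _ _ h1 _ ih =>
    have : z ∉ outer r L := fun h => h1 (Or.inl h)
    simp only [outer, List.map_cons, List.nodup_cons, List.mem_cons, not_or] at ih this ⊢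
    exact ⟨⟨fun h => this.1 h.symm, ih.1⟩, this.2, ih.2⟩

theorem Tree.pm (h : Ctx G m r) {L : List (α × α)} (hT : Tree G m r L) :
    ∀ x ∈ outer r L, PM G {y | InT m r L y ∧ y ≠ x} := by
  induction hT with
  | nil =>
    intro x hx
    refine (PM.empty G).congr fun y => ?_
    simp only [outer, List.map_nil, List.mem_singleton] at hx
    simp [InT, outer, inner, hx]
  | @cons L z v _ hv hG hz h1 h2 ih =>
    intro x hx
    rcases mem_outer_cons.1 hx with rfl | hx
    · refine (ih v hv).add hG (h.sym _ _ hG) (fun h => h.2 rfl) (fun h => h2 h.1) fun y => ?_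
      have : InT m r L v := Or.inl hv
      simp only [Set.mem_ofPred_eq, inT_cons]
      grind
    · have hG' := h.adj z hz
      refine (ih x hx).add hG' (h.sym _ _ hG') (fun h => h1 h.1) (fun h => h2 h.1) fun y => ?_
      have : InT m r L x := Or.inl hx
      simp only [Set.mem_ofPred_eq, inT_cons]
      grind

/-- Invariant of the climb from the two ends of an edge between outer vertices. -/
structure Climb (G : α → α → Prop) (m : α → α) (r : α) (L : List (α × α)) (x y : α)
    (C : List α) : Prop where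
  hx : x ∈ outer r L
  hy : y ∈ outer r L
  out : ∀ c ∈ C, ¬ InT m r L c
  cl : ∀ c ∈ C, m c ∈ C ∧ m c ≠ c
  two : x ≠ y → PM G {u | u ∈ C ∨ u = x ∨ u = y}
  one : ∀ c ∈ C, PM G {u | (u ∈ C ∧ u ≠ c) ∨ u = x} ∨ PM G {u | (u ∈ C ∧ u ≠ c) ∨ u = y}

theorem Climb.symm {L : List (α × α)} {x y : α} {C : List α} (h : Climb G m r L x y C) :
    Climb G m r L y x C :=
  ⟨h.hy, h.hx, h.out, h.cl, fun e => (h.two e.symm).congr fun u => by
    simp only [Set.mem_ofPred_eq]; tauto, fun c hc => (h.one c hc).symm⟩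

theorem Climb.skip {L : List (α × α)} {x y z v : α} {C : List α}
    (h : Climb G m r ((z, v) :: L) x y C) (hx : z ≠ x) (hy : z ≠ y) : Climb G m r L x y C :=
  ⟨(mem_outer_cons.1 h.hx).resolve_left hx.symm, (mem_outer_cons.1 h.hy).resolve_left hy.symm,
    fun c hc h' => h.out c hc (inT_cons.2 (Or.inr (Or.inr h'))), h.cl, h.two, h.one⟩

theorem Climb.step (hc : Ctx G m r) {L : List (α × α)} {y z v : α} {C : List α}
    (hT : Tree G m r ((z, v) :: L)) (h : Climb G m r ((z, v) :: L) z y C) (hzy : z ≠ y) :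
    Climb G m r L v y (z :: m z :: C) := by
  cases hT with
  | cons hT hv hG hz h1 h2 =>
  have hy : y ∈ outer r L := (mem_outer_cons.1 h.hy).resolve_left hzy.symm
  have hyT : InT m r L y := Or.inl hy
  have hvT : InT m r L v := Or.inl hv
  have hzC : z ∉ C := fun h' => h.out z h' (inT_cons.2 (Or.inl rfl))
  have hmC : m z ∉ C := fun h' => h.out _ h' (inT_cons.2 (Or.inr (Or.inl rfl)))
  have hout : ∀ c ∈ C, ¬ InT m r L c := fun c hc h' =>
    h.out c hc (inT_cons.2 (Or.inr (Or.inr h')))
  have hvC : v ∉ C := fun h' => hout v h' hvT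
  have hyC : y ∉ C := fun h' => hout y h' hyT
  have hvz : v ≠ z := fun e => h1 (e ▸ hvT)
  have hvm : v ≠ m z := fun e => h2 (e ▸ hvT)
  have hym : y ≠ m z := fun e => h2 (e ▸ hyT)
  have hGz := hc.adj z hz
  refine ⟨hv, hy, ?_, ?_, ?_, ?_⟩
  · intro c hc
    rcases List.mem_cons.1 hc with rfl | hc
    · exact h1
    · rcases List.mem_cons.1 hc with rfl | hc
      · exact h2
      · exact hout c hc
  · intro c hc'
    rcases List.mem_cons.1 hc' with rfl | hc'
    · simp [hz]
    · rcases List.mem_cons.1 hc' with rfl | hc'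
      · simp [hc.inv, hz.symm]
      · simp [h.cl c hc']
  · intro hvy
    refine (h.two hzy).add hG (hc.sym _ _ hG) ?_ ?_ fun u => ?_
    · simp only [Set.mem_ofPred_eq]; grind
    · simp only [Set.mem_ofPred_eq]; grind
    · simp only [Set.mem_ofPred_eq, List.mem_cons]; grind
  · intro c hc'
    rcases List.mem_cons.1 hc' with rfl | hc'
    · left
      refine (hc.pm (S := {u | u ∈ C}) h.cl).add hG (hc.sym _ _ hG) hvC hmC fun u => ?_
      simp only [Set.mem_ofPred_eq, List.mem_cons]; grind
    · rcases List.mem_cons.1 hc' with rfl | hc'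
      · right
        refine (h.two hzy).congr fun u => ?_
        simp only [Set.mem_ofPred_eq, List.mem_cons]; grind
      · rcases h.one c hc' with h3 | h3
        · left
          refine h3.add hG (hc.sym _ _ hG) ?_ ?_ fun u => ?_
          · simp only [Set.mem_ofPred_eq]; grind
          · simp only [Set.mem_ofPred_eq]; grind
          · simp only [Set.mem_ofPred_eq, List.mem_cons]; grind
        · right
          refine h3.add hGz (hc.sym _ _ hGz) ?_ ?_ fun u => ?_
          · simp only [Set.mem_ofPred_eq]; grind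
          · simp only [Set.mem_ofPred_eq]; grind
          · simp only [Set.mem_ofPred_eq, List.mem_cons]; grind

/-- One round of the climb. -/
def cstep [DecidableEq α] (m : α → α) (s : α × α × List α) (p : α × α) : α × α × List α :=
  if s.1 = s.2.1 then s else
    if p.1 = s.1 then (p.2, s.2.1, p.1 :: m p.1 :: s.2.2) else
      if p.1 = s.2.1 then (s.1, p.2, p.1 :: m p.1 :: s.2.2) else s

theorem foldl_cstep_eq [DecidableEq α] (m : α → α) (x : α) (C : List α) (L : List (α × α)) :
    L.foldl (cstep m) (x, x, C) = (x, x, C) := by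
  induction L with
  | nil => rfl
  | cons p L ih => simpa [cstep] using ih

theorem climb_spec [DecidableEq α] (hc : Ctx G m r) {L : List (α × α)} (hT : Tree G m r L) :
    ∀ (x y : α) (C : List α), Climb G m r L x y C →
      ∃ L', Tree G m r L' ∧ Climb G m r L' (L.foldl (cstep m) (x, y, C)).1
        (L.foldl (cstep m) (x, y, C)).1 (L.foldl (cstep m) (x, y, C)).2.2 ∧
        ((L.foldl (cstep m) (x, y, C)).2.2 = [] → x = y ∧ C = []) := by
  induction hT with
  | nil =>
    intro x y C h
    have h1 := h.hx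
    have h2 := h.hy
    simp only [outer, List.map_nil, List.mem_singleton] at h1 h2
    subst h1 h2
    exact ⟨[], Tree.nil, h, fun e => ⟨rfl, e⟩⟩
  | @cons L z v hT hv hG hz h1 h2 ih =>
    intro x y C h
    have hT' : Tree G m r ((z, v) :: L) := Tree.cons hT hv hG hz h1 h2
    by_cases hxy : x = y
    · subst hxy
      rw [foldl_cstep_eq]
      exact ⟨_, hT', h, fun e => ⟨rfl, e⟩⟩
    · rw [List.foldl_cons]
      by_cases hzx : z = x
      · subst hzx
        have e : cstep m (z, y, C) (z, v) = (v, y, z :: m z :: C) := by simp [cstep, hxy]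
        rw [e]
        obtain ⟨L', h3, h4, h5⟩ := ih _ _ _ (h.step hc hT' hxy)
        exact ⟨L', h3, h4, fun e => by simpa using (h5 e).2⟩
      · by_cases hzy : z = y
        · subst hzy
          have e : cstep m (x, z, C) (z, v) = (x, v, z :: m z :: C) := by simp [cstep, hxy, hzx]
          rw [e]
          obtain ⟨L', h3, h4, h5⟩ := ih _ _ _ (h.symm.step hc hT' hzx).symm
          exact ⟨L', h3, h4, fun e => by simpa using (h5 e).2⟩
        · have e : cstep m (x, y, C) (z, v) = (x, y, C) := by simp [cstep, hxy, hzx, hzy]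
          rw [e]
          exact ih _ _ _ (h.skip hzx hzy)

/-- Some matching covers `r` and every vertex covered by `m`. -/
def Aug (G : α → α → Prop) (m : α → α) (r : α) : Prop :=
  ∃ S, PM G S ∧ r ∈ S ∧ ∀ x, m x ≠ x → x ∈ S

/-- A barrier shows that no matching covers `r` and every vertex covered by `m`. -/
def Fail [DecidableEq α] (G : α → α → Prop) (m : α → α) (r : α) : Prop :=
  ∃ D : Finset α, Barrier G D ∧ ∀ x ∈ D, m x ≠ x ∨ x = r

theorem Fail.not_aug [DecidableEq α] (hc : Ctx G m r) (h : Fail G m r) : ¬ Aug G m r := by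
  rintro ⟨S, hS, hr, hm⟩
  obtain ⟨D, hD, h⟩ := h
  refine hD.not_subset hc.irr hS fun x hx => ?_
  rcases h x hx with h | rfl
  · exact hm x h
  · exact hr

theorem Tree.pm_compl (hc : Ctx G m r) {L : List (α × α)} (hT : Tree G m r L) {x : α}
    (hx : x ∈ outer r L) {C : Set α} (hC : ∀ c ∈ C, m c ∈ C) (hC' : ∀ c ∈ C, ¬ InT m r L c) :
    PM G {u | (m u ≠ u ∨ u = r) ∧ u ∉ C ∧ u ≠ x} := by
  have h1 : PM G {u | m u ≠ u ∧ u ∉ C ∧ ¬ InT m r L u} := by
    refine hc.pm fun u ⟨h1, h2, h3⟩ => ⟨⟨?_, fun h => h2 ?_, fun h => h3 ?_⟩, h1⟩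
    · rw [hc.inv]; exact h1.symm
    · simpa [hc.inv] using hC _ h
    · simpa [hc.inv] using inT_mate hc h
  refine ((hT.pm hc x hx).union h1 (fun u hu hu' => hu'.2.2 hu.1)).congr fun u => ?_
  have h2 := hT.closed hc u
  have h3 : InT m r L x := Or.inl hx
  have h4 : InT m r L r := Or.inl List.mem_cons_self
  have h5 := hC' u
  simp only [Set.mem_union, Set.mem_ofPred_eq]
  grind

theorem Tree.aug (hc : Ctx G m r) {L : List (α × α)} (hT : Tree G m r L) {v w : α}
    (hv : v ∈ outer r L) (hw : w ∉ outer r L) (hw' : m w = w) (hG : G v w) : Aug G m r := by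
  have h1 := hT.pm_compl hc hv (C := ∅) (by simp) (by simp)
  have hwr : w ≠ r := fun e => hw (e ▸ List.mem_cons_self)
  refine ⟨{u | (m u ≠ u ∨ u = r) ∨ u = w}, h1.add hG (hc.sym _ _ hG) ?_ ?_ fun u => ?_, ?_, ?_⟩
  · simp
  · simp [hw', hwr]
  · have := hT.closed hc v (Or.inl hv)
    simp only [Set.mem_ofPred_eq, Set.mem_empty_iff_false]
    grind
  · simp
  · intro x hx; simp [hx]

theorem Tree.fail [DecidableEq α] (hc : Ctx G m r) {L : List (α × α)} (hT : Tree G m r L)
    (h : ∀ v ∈ outer r L, ∀ w, G v w → w ∈ inner m L) : Fail G m r := by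
  refine ⟨(outer r L).toFinset, ⟨(inner m L).toFinset, id, ?_, ?_, ?_, ?_⟩, ?_⟩
  · simpa using hT.disj
  · intro x hx y hxy
    exact Or.inl (by simpa using h x (by simpa using hx) y hxy)
  · intro x hx
    have : (outer r L).toFinset.filter (fun y => id y = id x) = {x} := by
      ext y
      simp only [id, Finset.mem_filter, Finset.mem_singleton]
      exact ⟨fun h => h.2, fun h => ⟨h ▸ hx, h⟩⟩
    rw [this]; simp
  · rw [Finset.image_id, List.toFinset_card_of_nodup hT.nodup]
    refine lt_of_le_of_lt (List.toFinset_card_le _) ?_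
    simp [inner, outer]
  · intro x hx
    exact hT.closed hc x (Or.inl (by simpa using hx))

theorem Tree.grow (hc : Ctx G m r) {L : List (α × α)} (hT : Tree G m r L) {v w : α}
    (hv : v ∈ outer r L) (hw : w ∉ outer r L) (hw1 : w ∉ inner m L) (hw' : m w ≠ w) (hG : G v w) :
    Tree G m r ((m w, v) :: L) := by
  have h1 : ¬ InT m r L w := fun h => h.elim hw hw1
  refine Tree.cons hT hv (by rwa [hc.inv]) (by rw [hc.inv]; exact hw'.symm) (fun h => h1 ?_)
    (by rwa [hc.inv])
  simpa [hc.inv] using inT_mate hc h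

/-- The effect of contracting a blossom. -/
theorem contract_spec [DecidableEq α] (hc : Ctx G m r) {L : List (α × α)} (hT : Tree G m r L)
    {b : α} {C : List α} (h : Climb G m r L b b C) {G' : α → α → Prop} {m' : α → α}
    (hG' : ∀ x' y', G' x' y' ↔ x' ≠ y' ∧ ∃ x y, G x y ∧ (if x ∈ C then b else x) = x' ∧
      (if y ∈ C then b else y) = y')
    (hm' : ∀ x, m' x = if x ∈ C then x else m x) :
    Ctx G' m' r ∧ (Aug G' m' r → Aug G m r) ∧ (Fail G' m' r → Fail G m r) := by
  have hbT : InT m r L b := Or.inl h.hx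
  have hb : b ∉ C := fun h' => h.out b h' hbT
  have hr : r ∉ C := fun h' => h.out r h' (Or.inl List.mem_cons_self)
  have hcl : ∀ x, x ∉ C → m x ∉ C := fun x hx h' => hx (by simpa [hc.inv] using (h.cl _ h').1)
  have hGG : ∀ x y, x ∉ C → y ∉ C → G x y → G' x y := fun x y hx hy hxy =>
    (hG' x y).2 ⟨fun e => hc.irr x (e ▸ hxy), x, y, hxy, if_neg hx, if_neg hy⟩
  have hc' : Ctx G' m' r := by
    refine ⟨?_, ?_, ?_, ?_, ?_⟩
    · intro x y hxy
      obtain ⟨h1, p, q, h2, h3, h4⟩ := (hG' x y).1 hxy
      exact (hG' y x).2 ⟨h1.symm, q, p, hc.sym _ _ h2, h4, h3⟩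
    · intro x hx; exact ((hG' x x).1 hx).1 rfl
    · intro x
      by_cases hx : x ∈ C
      · simp [hm', hx]
      · simp [hm', hx, hcl x hx, hc.inv]
    · intro x hx
      by_cases hxC : x ∈ C
      · simp [hm', hxC] at hx
      · rw [hm', if_neg hxC] at hx ⊢
        exact hGG _ _ hxC (hcl x hxC) (hc.adj x hx)
    · simp [hm', hr, hc.root]
  have hbU := hT.closed hc b hbT
  refine ⟨hc', ?_, ?_⟩
  · rintro ⟨S, hS, hrS, hmS⟩
    have hbS : b ∈ S := by
      rcases hbU with h1 | h1
      · exact hmS b (by rwa [hm', if_neg hb])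
      · exact h1 ▸ hrS
    refine ⟨S ∪ C.toFinset, lift_success (G' := G') (b := b) hc.sym (by simpa using hb) ?_ ?_ ?_
      hS hbS, Or.inl hrS, fun x hx => ?_⟩
    · intro x' y' hxy
      simpa using (hG' x' y').1 hxy
    · exact hc.pm (by simpa using h.cl)
    · intro c hc''
      simpa using (h.one c (by simpa using hc'')).elim id id
    · by_cases hxC : x ∈ C
      · exact Or.inr (by simpa using hxC)
      · exact Or.inl (hmS x (by rwa [hm', if_neg hxC]))
  · rintro ⟨D, hD, hDU⟩
    have hDC : ∀ x ∈ D, x ∉ C := by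
      intro x hx hxC
      rcases hDU x hx with h1 | h1
      · simp [hm', hxC] at h1
      · exact hr (h1 ▸ hxC)
    have hDU' : ∀ x ∈ D, m x ≠ x ∨ x = r := by
      intro x hx
      have := hDU x hx
      rwa [hm', if_neg (hDC x hx)] at this
    have hbD : b ∈ D := by
      by_contra hbD
      have h1 := (hT.pm_compl hc h.hx (C := {u | u ∈ C}) (fun c hc => (h.cl c hc).1) h.out).mono
        (G' := G') (fun x hx y hy hxy => hGG x y hx.2.1 hy.2.1 hxy)
      exact hD.not_subset hc'.irr h1 fun x hx => ⟨hDU' x hx, hDC x hx, fun e => hbD (e ▸ hx)⟩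
    refine ⟨D ∪ C.toFinset, lift_barrier (G' := G') (b := b) ?_ ?_ hD hbD (by simpa using hDC), ?_⟩
    · intro x y hxy hne
      simp only [List.mem_toFinset] at hne ⊢
      exact (hG' _ _).2 ⟨hne, x, y, hxy, rfl, rfl⟩
    · exact even_card_of_invol (m := m) (by simpa using fun c hc => (h.cl c hc).1)
        (fun x _ => hc.inv x) (by simpa using fun c hc => (h.cl c hc).2)
    · intro x hx
      rcases Finset.mem_union.1 hx with h1 | h1
      · exact hDU' x h1
      · exact Or.inl (h.cl x (by simpa using h1)).2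

end Pool.Agent.Shared.Blossom
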